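import Pool.Agent.LSG.StmtsA

/-!
MP_005a41_gt, row OVL: overlaps of two sequences of dyadic intervals.
-/

set_option autoImplicit false

open MeasureTheory Set Topology Filter
open scoped BigOperators

namespace Pool.Agent.LSG.H80

def Dy (x : ℝ) : Prop := ∃ (a : ℤ) (N : ℕ), x = (a : ℝ) / 2 ^ N

theorem dy_add {x y : ℝ} (hx : Dy x) (hy : Dy y) : Dy (x + y) := by
  obtain ⟨a, N, rfl⟩ := hx
  obtain ⟨b, M, rfl⟩ := hy
  refine ⟨a * 2 ^ M + b * 2 ^ N, N + M, ?_⟩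
  push_cast
  rw [pow_add]
  field_simp

theorem dy_neg {x : ℝ} (hx : Dy x) : Dy (-x) := by
  obtain ⟨a, N, rfl⟩ := hx
  exact ⟨-a, N, by push_cast; ring⟩

theorem dy_sub {x y : ℝ} (hx : Dy x) (hy : Dy y) : Dy (x - y) := by
  rw [sub_eq_add_neg]
  exact dy_add hx (dy_neg hy)

theorem dy_max {x y : ℝ} (hx : Dy x) (hy : Dy y) : Dy (max x y) := by
  rcases max_choice x y with h | h <;> rw [h] <;> assumption

theorem dy_min {x y : ℝ} (hx : Dy x) (hy : Dy y) : Dy (min x y) := by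
  rcases min_choice x y with h | h <;> rw [h] <;> assumption

theorem dy_zero : Dy 0 := ⟨0, 0, by simp⟩

theorem dy_one_div (n : ℕ) : Dy (1 / 2 ^ n) := ⟨1, n, by simp⟩

theorem dy_sum (n : ℕ → ℕ) (i : ℕ) : Dy (∑ k ∈ Finset.range i, 1 / (2 : ℝ) ^ n k) := by
  induction i with
  | zero => simpa using dy_zero
  | succ i ih =>
    rw [Finset.sum_range_succ]
    exact dy_add ih (dy_one_div _)

theorem dy_nat {x : ℝ} (hx : Dy x) (h0 : 0 ≤ x) : ∃ a N : ℕ, x = (a : ℝ) / 2 ^ N := by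
  obtain ⟨a, N, rfl⟩ := hx
  have ha : 0 ≤ a := by
    by_contra h
    push Not at h
    have h1 : (a : ℝ) < 0 := by exact_mod_cast h
    have h2 : (a : ℝ) / 2 ^ N < 0 := div_neg_of_neg_of_pos h1 (by positivity)
    linarith
  refine ⟨a.toNat, N, ?_⟩
  have h3 : ((a.toNat : ℤ) : ℝ) = (a : ℝ) := by rw [Int.toNat_of_nonneg ha]
  rw [← h3, Int.cast_natCast]

def ov (a b c d : ℝ) : ℝ := max 0 (min b d - max a c)

theorem ov_comm (a b c d : ℝ) : ov a b c d = ov c d a b := by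
  unfold ov
  rw [min_comm b d, max_comm a c]

theorem ov_nonneg (a b c d : ℝ) : 0 ≤ ov a b c d := le_max_left _ _

theorem ov_eq {a b c d : ℝ} (h1 : a ≤ b) (h2 : c ≤ d) :
    ov a b c d = max a (min b d) - max a (min b c) := by
  unfold ov
  simp only [max_def, min_def]
  split_ifs <;> linarith

theorem ov_dy {a b c d : ℝ} (ha : Dy a) (hb : Dy b) (hc : Dy c) (hd : Dy d) :
    Dy (ov a b c d) :=
  dy_max dy_zero (dy_sub (dy_min hb hd) (dy_max ha hc))

theorem part (T S : ℕ → ℝ) (hT0 : T 0 = 0) (hS0 : S 0 = 0) (hTm : Monotone T)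
    (hSm : Monotone S) (hTS : ∀ i, ∃ j, T i ≤ S j) (i : ℕ) :
    {j | ov (T i) (T (i + 1)) (S j) (S (j + 1)) ≠ 0}.Finite ∧
      ∑ᶠ j, ov (T i) (T (i + 1)) (S j) (S (j + 1)) = T (i + 1) - T i := by
  obtain ⟨J, hJ⟩ := hTS (i + 1)
  have hTi : T i ≤ T (i + 1) := hTm (Nat.le_succ i)
  have he : ∀ j, ov (T i) (T (i + 1)) (S j) (S (j + 1)) =
      max (T i) (min (T (i + 1)) (S (j + 1))) - max (T i) (min (T (i + 1)) (S j)) := fun j =>
    ov_eq hTi (hSm (Nat.le_succ j))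
  have hz : ∀ j, J ≤ j → ov (T i) (T (i + 1)) (S j) (S (j + 1)) = 0 := by
    intro j hj
    have h1 : T (i + 1) ≤ S j := hJ.trans (hSm hj)
    have h2 : T (i + 1) ≤ S (j + 1) := h1.trans (hSm (Nat.le_succ j))
    rw [he, min_eq_left h1, min_eq_left h2, sub_self]
  constructor
  · refine (Set.finite_Iio J).subset ?_
    intro j hj
    rw [Set.mem_Iio]
    by_contra h
    exact hj (hz j (not_lt.mp h))
  · rw [finsum_eq_sum_of_support_subset (s := Finset.range J)]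
    · rw [Finset.sum_congr rfl (fun j _ => he j),
        Finset.sum_range_sub (fun j => max (T i) (min (T (i + 1)) (S j))) J]
      have h0 : 0 ≤ T i := by
        rw [← hT0]
        exact hTm (Nat.zero_le i)
      rw [hS0, min_eq_left hJ, max_eq_right hTi,
        max_eq_left ((min_le_right _ _).trans h0)]
    · intro j hj
      rw [Finset.coe_range, Set.mem_Iio]
      by_contra h
      exact hj (hz j (not_lt.mp h))

theorem hs (n : ℕ → ℕ) (hn : ∑' j : ℕ, (2 ^ n j : ENNReal)⁻¹ ≠ ⊤) :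
    HasSum (fun j => 1 / (2 : ℝ) ^ n j) (∑' j : ℕ, (2 ^ n j : ENNReal)⁻¹).toReal := by
  have h1 : ∀ j, ((2 ^ n j : ENNReal)⁻¹).toReal = 1 / (2 : ℝ) ^ n j := by
    intro j
    rw [ENNReal.toReal_inv, ENNReal.toReal_pow, one_div]
    rfl
  have h2 : Summable fun j => ((2 ^ n j : ENNReal)⁻¹).toReal := ENNReal.summable_toReal hn
  have h3 := h2.hasSum
  rw [← ENNReal.tsum_toReal_eq (fun j => by
    refine ENNReal.inv_ne_top.mpr ?_
    exact pow_ne_zero _ (by norm_num))] at h3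
  simpa only [h1] using h3

theorem sm (n : ℕ → ℕ) : Monotone fun i => ∑ k ∈ Finset.range i, 1 / (2 : ℝ) ^ n k := by
  refine monotone_nat_of_le_succ fun i => ?_
  rw [Finset.sum_range_succ]
  have : 0 ≤ 1 / (2 : ℝ) ^ n i := by positivity
  linarith

theorem reach {n m : ℕ → ℕ} {r : ℝ} (h1 : HasSum (fun j => 1 / (2 : ℝ) ^ n j) r)
    (h2 : HasSum (fun j => 1 / (2 : ℝ) ^ m j) r) (i : ℕ) :
    ∃ j, ∑ k ∈ Finset.range i, 1 / (2 : ℝ) ^ n k ≤ ∑ k ∈ Finset.range j, 1 / (2 : ℝ) ^ m k := by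
  have h3 : ∑ k ∈ Finset.range (i + 1), 1 / (2 : ℝ) ^ n k ≤ r :=
    sum_le_hasSum _ (fun k _ => by positivity) h1
  rw [Finset.sum_range_succ] at h3
  have h4 : 0 < 1 / (2 : ℝ) ^ n i := by positivity
  have h5 : ∑ k ∈ Finset.range i, 1 / (2 : ℝ) ^ n k < r := by linarith
  obtain ⟨j, hj⟩ := (h2.tendsto_sum_nat.eventually (lt_mem_nhds h5)).exists
  exact ⟨j, hj.le⟩

theorem ovl : OvlStmt := by
  intro n m hnm hn
  have h1 := hs n hn
  have h2 := hs m (hnm ▸ hn)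
  rw [← hnm] at h2
  have hq : ∀ i j : ℕ, ∃ a N : ℕ, ov (∑ k ∈ Finset.range i, 1 / (2 : ℝ) ^ n k)
      (∑ k ∈ Finset.range (i + 1), 1 / (2 : ℝ) ^ n k) (∑ k ∈ Finset.range j, 1 / (2 : ℝ) ^ m k)
      (∑ k ∈ Finset.range (j + 1), 1 / (2 : ℝ) ^ m k) = (a : ℝ) / 2 ^ N := fun i j =>
    dy_nat (ov_dy (dy_sum n i) (dy_sum n (i + 1)) (dy_sum m j) (dy_sum m (j + 1)))
      (ov_nonneg _ _ _ _)
  choose a N haN using hq
  have hne : ∀ i j, a i j ≠ 0 ↔ ov (∑ k ∈ Finset.range i, 1 / (2 : ℝ) ^ n k)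
      (∑ k ∈ Finset.range (i + 1), 1 / (2 : ℝ) ^ n k) (∑ k ∈ Finset.range j, 1 / (2 : ℝ) ^ m k)
      (∑ k ∈ Finset.range (j + 1), 1 / (2 : ℝ) ^ m k) ≠ 0 := by
    intro i j
    rw [haN i j]
    have h3 : (2 : ℝ) ^ N i j ≠ 0 := by positivity
    constructor
    · intro h
      exact div_ne_zero (by exact_mod_cast h) h3
    · intro h h0
      apply h
      rw [h0]
      simp
  refine ⟨a, N, fun i => ?_, fun j => ?_⟩
  · have h4 := part (fun i => ∑ k ∈ Finset.range i, 1 / (2 : ℝ) ^ n k)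
      (fun i => ∑ k ∈ Finset.range i, 1 / (2 : ℝ) ^ m k) (by simp) (by simp) (sm n) (sm m)
      (reach h1 h2) i
    simp only [haN] at h4
    refine ⟨?_, ?_⟩
    · refine h4.1.subset ?_
      intro j hj
      have := (hne i j).mp hj
      rw [haN] at this
      exact this
    · rw [h4.2, Finset.sum_range_succ]
      ring
  · have h4 := part (fun i => ∑ k ∈ Finset.range i, 1 / (2 : ℝ) ^ m k)
      (fun i => ∑ k ∈ Finset.range i, 1 / (2 : ℝ) ^ n k) (by simp) (by simp) (sm m) (sm n)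
      (reach h2 h1) j
    simp only [ov_comm (∑ k ∈ Finset.range j, 1 / (2 : ℝ) ^ m k), haN] at h4
    refine ⟨?_, ?_⟩
    · refine h4.1.subset ?_
      intro i hi
      have := (hne i j).mp hi
      rw [haN] at this
      exact this
    · rw [h4.2, Finset.sum_range_succ]
      ring

end Pool.Agent.LSG.H80
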